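import Pool.Agent.Q214.DN.Core

/-!
# A Borel graph with finite distinguishing number and Borel distinguishing number continuum

The vertices are the points of a comeager set of the Cantor space, two vertices with
finite nonempty difference set `γ` are adjacent if the common digit at a position coding `γ`
is one. For a generic point the component is a generic copy of the Rado graph. Every Borel
colouring with countably many colours is, on the component of a generic point, a generic colouring
with several colours, and back-and-forth gives a nontrivial automorphism which preserves it. On the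
other hand, with the axiom of choice every component gets an induced one-way infinite path whose
colouring with the colours `1`, `2` codes the component, and all other points get the colour `0`.
-/

open Cardinal

namespace Pool.Agent.Results.MP_591151_lc.GenericRadoComponents

/-- `c` is a distinguishing map: no nontrivial automorphism of the graph `G` (Borel or not)
preserves the colours of all vertices. -/
def Distinguishing {X I : Type} (G : SimpleGraph X) (c : X → I) : Prop :=
  ∀ φ : G ≃g G, (∃ x, φ x ≠ x) → ∃ x, c x ≠ c (φ x)

/-- The distinguishing number `D(G)`: the least cardinality of a set `I` such that there is a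
distinguishing map `X → I`. -/
noncomputable def distNumber {X : Type} (G : SimpleGraph X) : Cardinal :=
  sInf {κ | ∃ (I : Type) (c : X → I), #I = κ ∧ Distinguishing G c}

/-- The Borel distinguishing number `D_B(G)`: the least cardinality of a standard Borel space `I`
such that there is a Borel distinguishing map `X → I`. -/
noncomputable def borelDistNumber {X : Type} [MeasurableSpace X] (G : SimpleGraph X) : Cardinal :=
  sInf {κ | ∃ (I : Type) (_ : MeasurableSpace I) (_ : StandardBorelSpace I) (c : X → I),
    Measurable c ∧ #I = κ ∧ Distinguishing G c}

lemma mk_standardBorel (I : Type) [MeasurableSpace I] [StandardBorelSpace I] (h : ¬ Countable I) :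
    #I = 𝔠 := by
  have e : I ≃ᵐ ℝ := PolishSpace.measurableEquivOfNotCountable h
    (fun h' => by
      have h1 := Cardinal.mk_le_aleph0_iff.2 h'
      rw [Cardinal.mk_real] at h1
      exact absurd h1 (not_le.2 Cardinal.aleph0_lt_continuum))
  rw [Cardinal.mk_congr e.toEquiv, Cardinal.mk_real]

/-- There is a Borel graph whose distinguishing number is at most three and whose Borel
distinguishing number is the continuum. -/
theorem result : ∃ (X : Type) (_ : MeasurableSpace X) (_ : StandardBorelSpace X)
    (G : SimpleGraph X), MeasurableSet {p : X × X | G.Adj p.1 p.2} ∧
      distNumber G ≤ 3 ∧ borelDistNumber G = 𝔠 := by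
  refine ⟨Q214.DN.X, inferInstance, inferInstance, Q214.DN.G, Q214.DN.measurable_adj, ?_, ?_⟩
  · apply csInf_le'
    refine ⟨Fin 3, Q214.DN.col3, by simp, ?_⟩
    intro φ hφ
    by_contra h
    push Not at h
    obtain ⟨x, hx⟩ := hφ
    exact hx (Q214.DN.col3_distinguishing φ (fun y => (h y).symm) x)
  · have hall : ∀ κ ∈ {κ | ∃ (I : Type) (_ : MeasurableSpace I) (_ : StandardBorelSpace I)
        (c : Q214.DN.X → I), Measurable c ∧ #I = κ ∧ Distinguishing Q214.DN.G c}, κ = 𝔠 := by
      rintro κ ⟨I, _, _, c, hc, rfl, hd⟩
      apply mk_standardBorel
      intro hcount
      have _ : Encodable I := Encodable.ofCountable I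
      obtain ⟨φ, hφ1, hφ2⟩ := Q214.DN.not_distinguishing (fun x => Encodable.encode (c x))
        ((measurable_of_countable (Encodable.encode : I → ℕ)).comp hc)
      obtain ⟨x, hx⟩ := hd φ hφ1
      exact hx (Encodable.encode_injective (hφ2 x)).symm
    have hmem : #Q214.DN.X ∈ {κ | ∃ (I : Type) (_ : MeasurableSpace I) (_ : StandardBorelSpace I)
        (c : Q214.DN.X → I), Measurable c ∧ #I = κ ∧ Distinguishing Q214.DN.G c} := by
      refine ⟨Q214.DN.X, inferInstance, inferInstance, id, measurable_id, rfl, ?_⟩
      rintro φ ⟨x, hx⟩
      exact ⟨x, fun h => hx h.symm⟩
    exact hall _ (csInf_mem ⟨_, hmem⟩)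

end Pool.Agent.Results.MP_591151_lc.GenericRadoComponents
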